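import Mathlib

/-!
# Frankl's condition for 2-dense union-closed families

Let `F` be a union-closed family of nonempty subsets of `[n]`, with `[n] ∈ F`, whose closure
`{A ≠ ∅ | F ∪ {A} is union-closed}` has as its closure the family of all nonempty sets (in particular
let `F` be 2-dense). Then some element lies in more than half of the members of `F`.

Proof. The closure of `F` is an up-set. Hence the family `R` of the non-minimal members of `F` is an
up-set: if `B ⊂ A ⊆ C`, `A, B ∈ F` and `a ∈ A \ B`, then `C \ {a}` contains `B`, so it lies in the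
closure, and `C = (C \ {a}) ∪ A` lies in `F`. The union of two minimal members lies in `R`. For a minimal
member `T` there are at least `n - |T|` pairs `(A, i)` with `A ∈ R`, `i ∈ A`, `A \ {i} ∉ R`, `T ⊆ A \ {i}`,
and no such pair belongs to two minimal members. So the sum over `i` of the difference between the
numbers of the members of `R` that contain `i` and of those that do not is at least the sum of `n - |T|`
over all minimal members `T`. For `F` one gets the lower bound `∑ |T| > 0`.
-/

set_option autoImplicit false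

namespace Pool.Agent.Results.MP_5b71d7_co.TwoDense

open Finset

/-- `F` is closed under unions. -/
def UC {n : ℕ} (F : Finset (Finset (Fin n))) : Prop := ∀ A ∈ F, ∀ B ∈ F, A ∪ B ∈ F

open Classical in
/-- The closure of `F`: the nonempty sets `A` such that `F ∪ {A}` is closed under unions. -/
noncomputable def cl {n : ℕ} (F : Finset (Finset (Fin n))) : Finset (Finset (Fin n)) :=
  univ.filter fun A => A.Nonempty ∧ UC (insert A F)

/-- The family of all nonempty subsets of `[n]`. -/
def nonemptySets (n : ℕ) : Finset (Finset (Fin n)) := univ.filter fun A => A.Nonempty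

variable {n : ℕ}

theorem exists_max (R : Finset (Finset (Fin n))) (T : Finset (Fin n)) (i : Fin n) (hiT : i ∉ T)
    (hT : T ∉ R) (hU : (univ : Finset (Fin n)) ∈ R) :
    ∃ C : Finset (Fin n), ∃ j, T ⊆ C ∧ i ∉ C ∧ C ∉ R ∧ j ∉ C ∧ insert j C ∈ R := by
  obtain ⟨C, hC, hmax⟩ := (univ.filter fun C : Finset (Fin n) => T ⊆ C ∧ i ∉ C ∧ C ∉ R).exists_max_image
    (fun C => C.card) ⟨T, by simp [hiT, hT]⟩
  rw [mem_filter] at hC
  obtain ⟨-, h1, h2, h3⟩ := hC
  by_cases h : ∃ j, j ∉ C ∧ j ≠ i
  · obtain ⟨j, hj, hji⟩ := h
    refine ⟨C, j, h1, h2, h3, hj, ?_⟩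
    by_contra hcon
    have := hmax (insert j C) (by
      rw [mem_filter]
      refine ⟨mem_univ _, h1.trans (subset_insert _ _), ?_, hcon⟩
      rw [mem_insert]
      push Not
      exact ⟨fun h => hji h.symm, h2⟩)
    rw [card_insert_of_notMem hj] at this
    omega
  · push Not at h
    refine ⟨C, i, h1, h2, h3, h2, ?_⟩
    have : insert i C = univ := by
      ext j
      simp only [mem_insert, mem_univ, iff_true]
      by_cases hj : j ∈ C
      · exact Or.inr hj
      · exact Or.inl (h j hj)
    rw [this]
    exact hU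

/-- The boundary pairs of `R` above `T`. -/
def bd (R : Finset (Finset (Fin n))) (T : Finset (Fin n)) : Finset (Finset (Fin n) × Fin n) :=
  univ.filter fun p => T ⊆ p.1 ∧ p.1 ∉ R ∧ p.2 ∉ p.1 ∧ insert p.2 p.1 ∈ R

theorem bd_card (R : Finset (Finset (Fin n))) (hU : (univ : Finset (Fin n)) ∈ R) :
    ∀ (k : ℕ) (T : Finset (Fin n)), T ∉ R → n - T.card ≤ k → n - T.card ≤ (bd R T).card := by
  intro k
  induction k with
  | zero => intro T _ h; omega
  | succ k ih =>
    intro T hT hk
    by_cases h : ∃ i, i ∉ T ∧ insert i T ∉ R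
    · obtain ⟨i, hi, hiR⟩ := h
      have hc := card_insert_of_notMem hi
      have hle : (insert i T).card ≤ n := by
        have := card_le_univ (insert i T)
        simpa using this
      have h1 := ih (insert i T) hiR (by omega)
      obtain ⟨C, j, c1, c2, c3, c4, c5⟩ := exists_max R T i hi hT hU
      have h2 : insert (C, j) (bd R (insert i T)) ⊆ bd R T := by
        intro p hp
        rw [mem_insert] at hp
        rcases hp with rfl | hp
        · simp [bd, c1, c3, c4, c5]
        · simp only [bd, mem_filter, mem_univ, true_and] at hp ⊢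
          exact ⟨(subset_insert _ _).trans hp.1, hp.2⟩
      have h3 : (C, j) ∉ bd R (insert i T) := by
        simp only [bd, mem_filter, mem_univ, true_and, not_and]
        intro h
        exact absurd (h (mem_insert_self i T)) c2
      have h4 := card_le_card h2
      rw [card_insert_of_notMem h3] at h4
      omega
    · push Not at h
      have h2 : ((univ : Finset (Fin n)) \ T).image (fun i => (T, i)) ⊆ bd R T := by
        intro p hp
        rw [mem_image] at hp
        obtain ⟨i, hi, rfl⟩ := hp
        have hi' : i ∉ T := (mem_sdiff.1 hi).2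
        simp [bd, hT, hi', h i hi']
      have h3 := card_le_card h2
      rw [card_image_of_injective _ (fun a b h => congrArg Prod.snd h),
        card_sdiff_of_subset (subset_univ T)] at h3
      simpa using h3

/-- For an up-set `R` the sum of `2 |A| - n` over its members is the number of its boundary pairs. -/
theorem sum_upset (R : Finset (Finset (Fin n))) (hR : ∀ A ∈ R, ∀ C, A ⊆ C → C ∈ R) :
    ∑ i : Fin n, (2 * ((R.filter fun A => i ∈ A).card : ℤ) - R.card) = (bd R ∅).card := by
  have h1 : ∀ i : Fin n, (2 * ((R.filter fun A => i ∈ A).card : ℤ) - R.card) =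
      ((univ.filter fun A : Finset (Fin n) => A ∉ R ∧ i ∉ A ∧ insert i A ∈ R).card : ℤ) := by
    intro i
    have e1 := card_filter_add_card_filter_not (s := R) (fun A => i ∈ A)
    -- members containing `i` correspond to sets `C` avoiding `i` with `insert i C ∈ R`
    have e2 : (R.filter fun A => i ∈ A).card =
        (univ.filter fun C : Finset (Fin n) => i ∉ C ∧ insert i C ∈ R).card := by
      refine card_bij' (fun A _ => A.erase i) (fun C _ => insert i C) ?_ ?_ ?_ ?_
      · intro A hA
        rw [mem_filter] at hA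
        simp only [mem_filter, mem_univ, true_and]
        exact ⟨notMem_erase i A, by rw [insert_erase hA.2]; exact hA.1⟩
      · intro C hC
        simp only [mem_filter, mem_univ, true_and] at hC
        rw [mem_filter]
        exact ⟨hC.2, mem_insert_self i C⟩
      · intro A hA
        exact insert_erase (mem_filter.1 hA).2
      · intro C hC
        simp only [mem_filter, mem_univ, true_and] at hC
        exact erase_insert hC.1
    have e3 := card_filter_add_card_filter_not
      (s := univ.filter fun C : Finset (Fin n) => i ∉ C ∧ insert i C ∈ R) (fun C => C ∈ R)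
    have e4 : ((univ.filter fun C : Finset (Fin n) => i ∉ C ∧ insert i C ∈ R).filter
        fun C => C ∈ R) = R.filter fun A => ¬ i ∈ A := by
      ext C
      simp only [mem_filter, mem_univ, true_and]
      constructor
      · rintro ⟨⟨h1, _⟩, h3⟩
        exact ⟨h3, h1⟩
      · rintro ⟨h1, h2⟩
        exact ⟨⟨h2, hR C h1 _ (subset_insert _ _)⟩, h1⟩
    have e5 : ((univ.filter fun C : Finset (Fin n) => i ∉ C ∧ insert i C ∈ R).filter
        fun C => ¬ C ∈ R) = univ.filter fun A : Finset (Fin n) => A ∉ R ∧ i ∉ A ∧ insert i A ∈ R := by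
      ext C
      simp only [mem_filter, mem_univ, true_and]
      tauto
    rw [e4, e5] at e3
    push_cast [← e1]
    rw [e2] at e1 ⊢
    have e6 : (((univ.filter fun C : Finset (Fin n) => i ∉ C ∧ insert i C ∈ R).card : ℕ) : ℤ) =
      (R.filter fun A => ¬ i ∈ A).card + ((univ.filter fun A : Finset (Fin n) =>
        A ∉ R ∧ i ∉ A ∧ insert i A ∈ R).card : ℤ) := by
      rw [← e3]; push_cast; ring
    linarith
  rw [sum_congr rfl fun i _ => h1 i]
  have h2 : (bd R ∅).card = ∑ i : Fin n,
      (univ.filter fun A : Finset (Fin n) => A ∉ R ∧ i ∉ A ∧ insert i A ∈ R).card := by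
    rw [card_eq_sum_card_fiberwise (f := Prod.snd) (t := univ) (fun _ _ => mem_coe.2 (mem_univ _))]
    refine sum_congr rfl fun i _ => ?_
    refine card_bij' (fun p _ => p.1) (fun A _ => (A, i)) ?_ ?_ ?_ ?_
    · intro p hp
      simp only [bd, mem_filter, mem_univ, true_and] at hp ⊢
      obtain ⟨⟨_, h1, h2, h3⟩, h4⟩ := hp
      rw [h4] at h2 h3
      exact ⟨h1, h2, h3⟩
    · intro A hA
      simp only [bd, mem_filter, mem_univ, true_and] at hA ⊢
      exact ⟨⟨empty_subset _, hA⟩, trivial⟩
    · intro p hp
      simp only [bd, mem_filter, mem_univ, true_and] at hp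
      exact Prod.ext rfl hp.2.symm
    · intro A _
      rfl
  rw [h2]
  push_cast
  rfl

theorem main (F : Finset (Finset (Fin n))) (h0 : ∅ ∉ F) (hU : (univ : Finset (Fin n)) ∈ F)
    (huc : UC F) (hcl : cl (cl F) = nonemptySets n) :
    ∃ i : Fin n, F.card < 2 * (F.filter fun A => i ∈ A).card := by
  classical
  have hne : ∀ A ∈ F, A.Nonempty := fun A hA => by
    rw [nonempty_iff_ne_empty]
    rintro rfl
    exact h0 hA
  have hmem : ∀ (G : Finset (Finset (Fin n))) (A : Finset (Fin n)),
      A ∈ cl G ↔ A.Nonempty ∧ UC (insert A G) := by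
    intro G A
    simp [cl]
  -- the closure of `F` is an up-set
  have hup : ∀ A ∈ cl F, ∀ C, A ⊆ C → C ∈ cl F := by
    intro A hA C hAC
    by_cases hCA : C = A
    · rw [hCA]; exact hA
    have hAne : A.Nonempty := ((hmem _ _).1 hA).1
    have hD : (C \ A).Nonempty := by
      rw [sdiff_nonempty]
      exact fun h => hCA (Subset.antisymm h hAC)
    have h1 : C \ A ∈ cl (cl F) := by
      rw [hcl]
      simp [nonemptySets, hD]
    have h2 := ((hmem _ _).1 h1).2 (C \ A) (mem_insert_self _ _) A (mem_insert_of_mem hA)
    rw [sdiff_union_of_subset hAC, mem_insert] at h2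
    rcases h2 with h2 | h2
    · exfalso
      obtain ⟨a, ha⟩ := hAne
      have : a ∈ C \ A := h2 ▸ hAC ha
      exact (mem_sdiff.1 this).2 ha
    · exact h2
  have hFcl : ∀ A ∈ F, A ∈ cl F := by
    intro A hA
    rw [hmem]
    refine ⟨hne A hA, ?_⟩
    rw [insert_eq_self.2 hA]
    exact huc
  let R := F.filter fun A => ∃ B ∈ F, B ⊂ A
  let M := F.filter fun A => ¬ ∃ B ∈ F, B ⊂ A
  have hRup : ∀ A ∈ R, ∀ C, A ⊆ C → C ∈ R := by
    intro A hA C hAC
    obtain ⟨hAF, B, hB, hBA⟩ := mem_filter.1 hA
    refine mem_filter.2 ⟨?_, B, hB, lt_of_lt_of_le hBA hAC⟩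
    by_cases hCA : C = A
    · rw [hCA]; exact hAF
    obtain ⟨a, haA, haB⟩ := exists_of_ssubset hBA
    have h1 : C.erase a ∈ cl F := hup B (hFcl B hB) _ (by
      intro b hb
      exact mem_erase.2 ⟨fun h => haB (h ▸ hb), hAC (hBA.1 hb)⟩)
    have h2 := ((hmem _ _).1 h1).2 (C.erase a) (mem_insert_self _ _) A (mem_insert_of_mem hAF)
    have h3 : C.erase a ∪ A = C := by
      ext b
      rw [mem_union, mem_erase]
      constructor
      · rintro (h | h)
        · exact h.2
        · exact hAC h
      · intro h
        by_cases hb : b = a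
        · exact Or.inr (hb ▸ haA)
        · exact Or.inl ⟨hb, h⟩
    rw [h3, mem_insert] at h2
    rcases h2 with h2 | h2
    · exfalso
      have : a ∈ C.erase a := h2 ▸ hAC haA
      exact notMem_erase a C this
    · exact h2
  have hMM : ∀ A ∈ M, ∀ B ∈ M, A ≠ B → A ∪ B ∈ R := by
    intro A hA B hB hAB
    obtain ⟨hAF, hAm⟩ := mem_filter.1 hA
    obtain ⟨hBF, hBm⟩ := mem_filter.1 hB
    refine mem_filter.2 ⟨huc A hAF B hBF, A, hAF, subset_union_left, fun h => ?_⟩
    have : B ⊆ A := subset_union_right.trans h
    exact hAm ⟨B, hBF, this, fun h' => hAB (Subset.antisymm h' this)⟩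
  have hMR : ∀ T ∈ M, T ∉ R := fun T hT h => (mem_filter.1 hT).2 (mem_filter.1 h).2
  have hMne : M.Nonempty := by
    obtain ⟨T, hT, hmin⟩ := F.exists_min_image (fun A => A.card) ⟨_, hU⟩
    refine ⟨T, mem_filter.2 ⟨hT, ?_⟩⟩
    rintro ⟨B, hB, hBT⟩
    have := card_lt_card hBT
    have := hmin B hB
    omega
  -- boundary pairs above the minimal members
  have hsum : ∑ T ∈ M, (n - T.card) ≤ (bd R ∅).card := by
    calc ∑ T ∈ M, (n - T.card) ≤ ∑ T ∈ M, (bd R T).card := by
          refine sum_le_sum fun T hT => ?_
          by_cases hTU : T = univ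
          · rw [hTU]; simp
          · have : (univ : Finset (Fin n)) ∈ R := mem_filter.2 ⟨hU, T, (mem_filter.1 hT).1,
              subset_univ _, fun h => hTU (Subset.antisymm (subset_univ _) h)⟩
            exact bd_card R this _ T (hMR T hT) le_rfl
      _ = (M.biUnion fun T => bd R T).card := by
          rw [card_biUnion]
          intro T hT T' hT' hne
          rw [Function.onFun, disjoint_left]
          intro p hp hp'
          simp only [bd, mem_filter, mem_univ, true_and] at hp hp'
          exact hp.2.1 (hRup _ (hMM T hT T' hT' hne) _ (union_subset hp.1 hp'.1))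
      _ ≤ (bd R ∅).card := by
          refine card_le_card fun p hp => ?_
          obtain ⟨T, _, hp⟩ := mem_biUnion.1 hp
          simp only [bd, mem_filter, mem_univ, true_and] at hp ⊢
          exact ⟨empty_subset _, hp.2⟩
  have hF : ∀ i, (F.filter fun A => i ∈ A).card =
      (R.filter fun A => i ∈ A).card + (M.filter fun A => i ∈ A).card := by
    intro i
    have := card_filter_add_card_filter_not (s := F.filter fun A => i ∈ A)
      (fun A => ∃ B ∈ F, B ⊂ A)
    rw [← this, filter_comm, filter_comm (p := fun A => i ∈ A)]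
  have hFc : F.card = R.card + M.card :=
    (card_filter_add_card_filter_not (s := F) (fun A => ∃ B ∈ F, B ⊂ A)).symm
  have hMs : ∑ i : Fin n, ((M.filter fun A => i ∈ A).card : ℤ) = ∑ T ∈ M, (T.card : ℤ) := by
    have : ∀ i : Fin n, ((M.filter fun A => i ∈ A).card : ℤ) = ∑ T ∈ M, if i ∈ T then 1 else 0 := by
      intro i
      rw [card_filter]
      push_cast
      rfl
    rw [sum_congr rfl fun i _ => this i, sum_comm]
    refine sum_congr rfl fun T _ => ?_
    rw [← sum_filter]
    simp
  have htot : 0 < ∑ i : Fin n, (2 * ((F.filter fun A => i ∈ A).card : ℤ) - F.card) := by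
    have e1 : ∑ i : Fin n, (2 * ((F.filter fun A => i ∈ A).card : ℤ) - F.card) =
        (bd R ∅).card + ∑ T ∈ M, (2 * (T.card : ℤ) - n) := by
      rw [← sum_upset R hRup, sum_sub_distrib (s := M), ← mul_sum, ← hMs]
      have : ∀ i : Fin n, (2 * ((F.filter fun A => i ∈ A).card : ℤ) - F.card) =
          (2 * ((R.filter fun A => i ∈ A).card : ℤ) - R.card) +
          (2 * ((M.filter fun A => i ∈ A).card : ℤ) - M.card) := by
        intro i
        rw [hF i, hFc]
        push_cast
        ring
      rw [sum_congr rfl fun i _ => this i, sum_add_distrib]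
      congr 1
      rw [sum_sub_distrib, ← mul_sum]
      simp [mul_comm]
    rw [e1]
    have e2 : (∑ T ∈ M, ((n : ℤ) - T.card)) ≤ (bd R ∅).card := by
      have : ∑ T ∈ M, ((n : ℤ) - T.card) = ((∑ T ∈ M, (n - T.card) : ℕ) : ℤ) := by
        push_cast
        refine sum_congr rfl fun T _ => ?_
        have : T.card ≤ n := by
          have := card_le_univ T
          simpa using this
        rw [Nat.cast_sub this]
      rw [this]
      exact_mod_cast hsum
    have e3 : 0 < ∑ T ∈ M, (T.card : ℤ) := by
      refine sum_pos (fun T hT => ?_) hMne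
      have := (hne T (mem_filter.1 hT).1).card_pos
      exact_mod_cast this
    have e4 : ∑ T ∈ M, ((n : ℤ) - T.card) + ∑ T ∈ M, (2 * (T.card : ℤ) - n) =
        ∑ T ∈ M, (T.card : ℤ) := by
      rw [← sum_add_distrib]
      refine sum_congr rfl fun T _ => ?_
      ring
    linarith
  by_contra hcon
  push Not at hcon
  have : ∑ i : Fin n, (2 * ((F.filter fun A => i ∈ A).card : ℤ) - F.card) ≤ 0 := by
    refine sum_nonpos fun i _ => ?_
    have := hcon i
    have : (2 * (F.filter fun A => i ∈ A).card : ℤ) ≤ F.card := by exact_mod_cast this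
    linarith
  linarith

theorem result :
    ∀ (n : ℕ) (F : Finset (Finset (Fin n))),
      -- `F` is a union-closed family over `[n]`
      ∅ ∉ F → univ ∈ F → UC F →
      -- `F` is 2-dense
      IsLeast {k : ℕ | cl^[k] F = nonemptySets n} 2 →
      -- some element lies in more than half of the members
      ∃ i : Fin n, F.card / 2 ≤ (F.filter fun A => i ∈ A).card ∧
        F.card < 2 * (F.filter fun A => i ∈ A).card := by
  intro n F h0 hU huc hd
  obtain ⟨i, hi⟩ := main F h0 hU huc (by
    have := hd.1
    simpa using this)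
  exact ⟨i, by omega, hi⟩

end Pool.Agent.Results.MP_5b71d7_co.TwoDense
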